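import Pool.Agent.H28.BF.Stm

set_option autoImplicit false

/-!
# Module REC: many multiples close to integers give one small multiple very close to an integer
-/

namespace Pool.Agent.H5.BF

open Finset Filter Topology Polynomial Pool.Agent.H28.BF

theorem nd_nonneg (x : ℝ) : 0 ≤ nd x := abs_nonneg _

theorem nd_le (x : ℝ) (k : ℤ) : nd x ≤ |x - k| := round_le x k

theorem nd_half (x : ℝ) : nd x ≤ 1 / 2 := abs_sub_round x

theorem nd_sub (x y : ℝ) : nd (x - y) ≤ nd x + nd y := by
  refine (nd_le _ (round x - round y)).trans ?_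
  unfold nd
  push_cast
  have h : x - y - ((round x : ℝ) - round y) = (x - round x) - (y - round y) := by ring
  rw [h]
  exact abs_sub _ _

theorem nd_eq (x : ℝ) (k : ℤ) (h : |x - k| ≤ 1 / 2) : nd x = |x - k| := by
  refine le_antisymm (nd_le x k) ?_
  unfold nd
  by_cases hk : round x = k
  · rw [hk]
  · have h1 : (1 : ℝ) ≤ |((round x : ℤ) : ℝ) - k| := by
      rw [← Int.cast_sub, ← Int.cast_abs]
      exact_mod_cast Int.one_le_abs (sub_ne_zero.2 hk)
    have h2 : |((round x : ℤ) : ℝ) - k| ≤ |x - round x| + |x - k| := by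
      have e : ((round x : ℤ) : ℝ) - k = (x - k) - (x - round x) := by ring
      rw [e]
      exact (abs_sub _ _).trans (le_of_eq (add_comm _ _))
    linarith

theorem nd_mul (y : ℝ) (m : ℤ) (h : |(m : ℝ)| * nd y ≤ 1 / 2) : nd (m * y) = |(m : ℝ)| * nd y := by
  have e : (m : ℝ) * y - ((m * round y : ℤ) : ℝ) = m * (y - round y) := by push_cast; ring
  have h1 : |(m : ℝ) * y - ((m * round y : ℤ) : ℝ)| = |(m : ℝ)| * nd y := by
    rw [e, abs_mul]
    rfl
  rw [← h1] at h ⊢
  exact nd_eq _ _ h

/-- the first step: a small difference -/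
theorem step1 {c : ℝ} (hc : 0 < c) {N : ℕ} {θ κ : ℝ} (hN : 4 / c < N)
    (hS : c * N ≤ (((Icc 1 N).filter (fun h : ℕ => nd (h * θ) ≤ κ)).card : ℝ)) :
    ∃ q : ℕ, 1 ≤ q ∧ (q : ℝ) ≤ 2 / c ∧ nd (q * θ) ≤ 2 * κ := by
  set S := (Icc 1 N).filter (fun h : ℕ => nd (h * θ) ≤ κ) with hSd
  set B : ℕ := ⌈2 / c⌉₊ with hB
  have hB0 : 0 < B := Nat.ceil_pos.2 (by positivity)
  have hB0' : (0 : ℝ) < B := by exact_mod_cast hB0
  have hB1 : 2 / c ≤ B := Nat.le_ceil _
  have hB2 : (B : ℝ) < 2 / c + 1 := Nat.ceil_lt_add_one (by positivity)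
  have hcN : 4 < c * N := by
    rw [div_lt_iff₀ hc] at hN
    linarith
  have hcard : (range (N / B + 1)).card < S.card := by
    rw [card_range]
    have h1 : ((N / B + 1 : ℕ) : ℝ) < S.card := by
      have h2 : ((N / B : ℕ) : ℝ) ≤ N / B := Nat.cast_div_le
      have h3 : (N : ℝ) / B ≤ c * N / 2 := by
        rw [div_le_iff₀ hB0']
        have h4 : 2 ≤ c * B := by
          rw [div_le_iff₀ hc] at hB1
          linarith
        have h5 : (0 : ℝ) ≤ N := Nat.cast_nonneg N
        nlinarith
      push_cast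
      linarith
    exact_mod_cast h1
  obtain ⟨x, hx, y, hy, hxy, hf⟩ := Finset.exists_ne_map_eq_of_card_lt_of_maps_to (f := fun h => h / B) hcard
    (fun h hh => by
      have h1 := (Finset.mem_Icc.1 (Finset.mem_filter.1 hh).1).2
      exact Finset.mem_coe.2 (Finset.mem_range.2 (Nat.lt_succ_of_le (Nat.div_le_div_right h1))))
  wlog hlt : x < y generalizing x y
  · exact this y hy x hx (Ne.symm hxy) hf.symm (by omega)
  refine ⟨y - x, by omega, ?_, ?_⟩
  · have h1 : y - x < B := by
      have h2 := Nat.div_add_mod x B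
      have h3 := Nat.div_add_mod y B
      have h4 := Nat.mod_lt y hB0
      have hf' : x / B = y / B := hf
      rw [hf'] at h2
      omega
    have h5 : ((y - x : ℕ) : ℝ) + 1 ≤ B := by exact_mod_cast h1
    linarith
  · have hx2 := (Finset.mem_filter.1 hx).2
    have hy2 := (Finset.mem_filter.1 hy).2
    rw [Nat.cast_sub hlt.le, sub_mul]
    exact (nd_sub _ _).trans (by linarith)

/-- the counting bound -/
theorem step2 {N q : ℕ} {θ κ : ℝ} (hq : 1 ≤ q) (hκ : 0 ≤ κ) (hβ : 0 < nd (q * θ)) :
    (((Icc 1 N).filter (fun h : ℕ => nd (h * θ) ≤ κ)).card : ℝ) ≤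
      (4 * nd (q * θ) * N + q) * (2 * κ / nd (q * θ) + 1) := by
  classical
  set S := (Icc 1 N).filter (fun h : ℕ => nd (h * θ) ≤ κ) with hSd
  set β := nd (q * θ) with hβd
  have hβ2 : β ≤ 1 / 2 := nd_half _
  set J : ℕ := ⌊1 / (2 * β)⌋₊ with hJ
  have hJ1 : 1 ≤ J := by
    rw [hJ, Nat.one_le_floor_iff, one_le_div (by positivity)]
    linarith
  have hJ0 : (1 : ℝ) ≤ J := by exact_mod_cast hJ1
  have hJle : (J : ℝ) ≤ 1 / (2 * β) := Nat.floor_le (by positivity)
  have hJβ : (J : ℝ) * β ≤ 1 / 2 := by
    have := mul_le_mul_of_nonneg_right hJle hβ.le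
    refine this.trans (le_of_eq ?_)
    field_simp
  have hJge : 1 ≤ 4 * β * J := by
    have h1 : 1 / (2 * β) < J + 1 := Nat.lt_floor_add_one _
    rw [div_lt_iff₀ (by positivity)] at h1
    nlinarith
  set n : ℕ := ⌊2 * κ / β⌋₊ + 1 with hn
  have hq0 : (1 : ℝ) ≤ q := by exact_mod_cast hq
  have hcard : S.card ≤ n * (range q ×ˢ range (N / q / J + 1)).card := by
    refine Finset.card_le_mul_card_image_of_maps_to (f := fun h : ℕ => (h % q, h / q / J)) ?_ n ?_
    · intro h hh
      have h1 := (Finset.mem_Icc.1 (Finset.mem_filter.1 hh).1).2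
      refine Finset.mem_product.2 ⟨Finset.mem_range.2 (Nat.mod_lt _ hq), Finset.mem_range.2 ?_⟩
      exact Nat.lt_succ_of_le (Nat.div_le_div_right (Nat.div_le_div_right h1))
    · intro b hb
      rcases (S.filter (fun h : ℕ => (h % q, h / q / J) = b)).eq_empty_or_nonempty with h0 | h0
      · rw [h0, card_empty]
        omega
      obtain ⟨h₀, hh₀, hmin⟩ := Finset.exists_min_image _ (fun h => h / q) h0
      have key : ∀ h ∈ S.filter (fun h : ℕ => (h % q, h / q / J) = b), h / q - h₀ / q < n := by
        intro h hh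
        obtain ⟨hS, hb1⟩ := Finset.mem_filter.1 hh
        obtain ⟨hS₀, hb0⟩ := Finset.mem_filter.1 hh₀
        have hle := hmin h hh
        have e1 : h % q = h₀ % q := by
          have := congrArg Prod.fst (hb1.trans hb0.symm)
          exact this
        have e2 : h / q / J = h₀ / q / J := by
          have := congrArg Prod.snd (hb1.trans hb0.symm)
          exact this
        have hlt : h / q - h₀ / q < J := by
          have h2 := Nat.div_add_mod (h / q) J
          have h3 := Nat.div_add_mod (h₀ / q) J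
          have h4 := Nat.mod_lt (h / q) hJ1
          rw [e2] at h2
          omega
        set m : ℕ := h / q - h₀ / q with hm
        have hmq : (h : ℝ) - h₀ = m * q := by
          have h2 := Nat.div_add_mod h q
          have h3 := Nat.div_add_mod h₀ q
          have h5 : h = h₀ + m * q := by
            have h6 : h / q = h₀ / q + m := by omega
            rw [h6, e1] at h2
            rw [← h2]
            conv_rhs => rw [← h3]
            ring
          rw [h5]
          push_cast
          ring
        have h7 : nd ((m : ℤ) * (q * θ)) ≤ 2 * κ := by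
          have h8 : ((m : ℤ) : ℝ) * (q * θ) = h * θ - h₀ * θ := by
            rw [← sub_mul, hmq]
            push_cast
            ring
          rw [h8]
          refine (nd_sub _ _).trans ?_
          have h9 := (Finset.mem_filter.1 hS).2
          have h10 := (Finset.mem_filter.1 hS₀).2
          linarith
        have hmJ : (m : ℝ) ≤ J := by exact_mod_cast hlt.le
        have h11 : |((m : ℤ) : ℝ)| * nd (q * θ) ≤ 1 / 2 := by
          rw [← hβd]
          have : |((m : ℤ) : ℝ)| = m := by simp
          rw [this]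
          exact (mul_le_mul_of_nonneg_right hmJ hβ.le).trans hJβ
        rw [nd_mul _ _ h11, ← hβd] at h7
        have h12 : |((m : ℤ) : ℝ)| = m := by simp
        rw [h12, ← le_div_iff₀ hβ] at h7
        rw [hn]
        exact Nat.lt_succ_of_le (Nat.le_floor h7)
      have hc := Finset.card_le_card_of_injOn (s := S.filter (fun h : ℕ => (h % q, h / q / J) = b))
        (t := range n) (fun h => h / q - h₀ / q) (fun h hh => by
          exact Finset.mem_coe.2 (Finset.mem_range.2 (key h (Finset.mem_coe.1 hh)))) (by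
          intro h hh h' hh' he
          have hh1 := Finset.mem_coe.1 hh
          have hh2 := Finset.mem_coe.1 hh'
          have hle := hmin h hh1
          have hle' := hmin h' hh2
          have hb1 := (Finset.mem_filter.1 hh1).2
          have hb2 := (Finset.mem_filter.1 hh2).2
          have e1 : h % q = h' % q := by
            have := congrArg Prod.fst (hb1.trans hb2.symm)
            exact this
          simp only at he hle hle'
          have e3 : h / q = h' / q := by omega
          have h2 := Nat.div_add_mod h q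
          have h3 := Nat.div_add_mod h' q
          rw [← h2, ← h3, e1, e3])
      rw [card_range] at hc
      exact hc
  rw [card_product, card_range, card_range] at hcard
  have h1 : (S.card : ℝ) ≤ (n : ℝ) * (q * (((N / q / J : ℕ) : ℝ) + 1)) := by exact_mod_cast hcard
  have h2 : (n : ℝ) ≤ 2 * κ / β + 1 := by
    rw [hn]
    push_cast
    have := Nat.floor_le (show 0 ≤ 2 * κ / β by positivity)
    linarith
  have h3 : (q : ℝ) * (((N / q / J : ℕ) : ℝ) + 1) ≤ 4 * β * N + q := by
    have h4 : ((N / q / J : ℕ) : ℝ) ≤ N / (q * J) := by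
      rw [Nat.div_div_eq_div_mul]
      refine Nat.cast_div_le.trans (le_of_eq ?_)
      push_cast
      rfl
    have h5 : (q : ℝ) * ((N / q / J : ℕ) : ℝ) ≤ 4 * β * N := by
      calc (q : ℝ) * ((N / q / J : ℕ) : ℝ) ≤ q * (N / (q * J)) := mul_le_mul_of_nonneg_left h4 (by linarith)
        _ = N / J := by
            field_simp
        _ ≤ 4 * β * N := by
            rw [div_le_iff₀ (by linarith)]
            have h6 : (0 : ℝ) ≤ N := Nat.cast_nonneg N
            nlinarith
    linarith
  calc (S.card : ℝ) ≤ (n : ℝ) * (q * (((N / q / J : ℕ) : ℝ) + 1)) := h1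
    _ ≤ (2 * κ / β + 1) * (4 * β * N + q) := mul_le_mul h2 h3 (by positivity) (by positivity)
    _ = _ := by ring

/-- **Module REC.** -/
theorem t_REC : S_REC := by
  intro c hc
  refine ⟨⌈16 / c ^ 2⌉₊ + ⌈4 / c⌉₊ + 4, c / 64, by omega, by positivity, ?_⟩
  intro N θ κ hN hκ hκ0 hS
  set C : ℕ := ⌈16 / c ^ 2⌉₊ + ⌈4 / c⌉₊ + 4 with hC
  have hC1 : 16 / c ^ 2 ≤ (C : ℝ) := by
    rw [hC]
    push_cast
    have h1 := Nat.le_ceil (16 / c ^ 2)
    have h2 : (0 : ℝ) ≤ (⌈4 / c⌉₊ : ℝ) := Nat.cast_nonneg _
    linarith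
  have hC2 : 4 / c < (C : ℝ) := by
    rw [hC]
    push_cast
    have h1 := Nat.le_ceil (4 / c)
    have h2 : (0 : ℝ) ≤ (⌈16 / c ^ 2⌉₊ : ℝ) := Nat.cast_nonneg _
    linarith
  have hCN : (C : ℝ) ≤ N := by exact_mod_cast hN
  obtain ⟨q, hq1, hq2, hq3⟩ := step1 hc (hC2.trans_le hCN) hS
  have hq0 : (1 : ℝ) ≤ q := by exact_mod_cast hq1
  have hN0 : (0 : ℝ) < N := by
    have : 0 < 4 / c := by positivity
    linarith
  refine ⟨q, hq1, ?_, ?_⟩
  · have h1 : (q : ℝ) ≤ C := by
      have : 2 / c ≤ 4 / c := by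
        refine div_le_div_of_nonneg_right (by norm_num) hc.le
      linarith
    exact_mod_cast h1
  · rcases (nd_nonneg (q * θ)).eq_or_lt with h0 | h0
    · rw [← h0]
      positivity
    have h1 := hS.trans (step2 hq1 hκ h0)
    set β := nd (q * θ) with hβ
    have h2 : (4 * β * N + q) * (2 * κ / β + 1) = 8 * κ * N + 4 * β * N + 2 * q * κ / β + q := by
      field_simp
      ring
    rw [h2] at h1
    have h3 : (q : ℝ) ≤ c * N / 4 := by
      have h4 : 16 / c ^ 2 ≤ (N : ℝ) := hC1.trans hCN
      have h5 : 4 / c ≤ c * N / 4 := by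
        have h6 := mul_le_mul_of_nonneg_left h4 (show 0 ≤ c / 4 by positivity)
        have h7 : c / 4 * (16 / c ^ 2) = 4 / c := by
          field_simp
          norm_num
        rw [h7] at h6
        linarith
      have : 2 / c ≤ 4 / c := div_le_div_of_nonneg_right (by norm_num) hc.le
      linarith
    have h4 : 8 * κ * N + 4 * β * N ≤ c * N / 4 := by
      have h5 : 8 * κ + 4 * β ≤ c / 4 := by linarith
      nlinarith
    have h5 : c * N / 2 ≤ 2 * q * κ / β := by linarith
    rw [le_div_iff₀ h0] at h5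
    rw [le_div_iff₀ hN0]
    have h6 : 2 * q * κ ≤ 4 / c * κ := by
      have h7 : 2 * (q : ℝ) ≤ 4 / c := by
        have h8 : 4 / c = 2 * (2 / c) := by ring
        rw [h8]
        linarith
      exact mul_le_mul_of_nonneg_right h7 hκ
    have h7 : c * N / 2 * β ≤ 4 / c * κ := h5.trans h6
    have h8 : β * N ≤ 8 / c ^ 2 * κ := by
      have h9 := mul_le_mul_of_nonneg_left h7 (show 0 ≤ 2 / c by positivity)
      have e1 : 2 / c * (c * N / 2 * β) = β * N := by field_simp
      have e2 : 2 / c * (4 / c * κ) = 8 / c ^ 2 * κ := by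
        field_simp
        ring
      rw [e1, e2] at h9
      exact h9
    refine h8.trans (mul_le_mul_of_nonneg_right ?_ hκ)
    refine le_trans ?_ hC1
    exact div_le_div_of_nonneg_right (by norm_num) (by positivity)

end Pool.Agent.H5.BF
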